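import Pool.Agent.Helper11.TG.AbsIrr
import Pool.Agent.Helper68.TG.Goals

/-!
# Project TG (MP_a41896_nt), packet AIG: absolute irreducibility
-/

set_option autoImplicit false

namespace Pool.Agent.Helper11.TG.AIG

theorem t : Pool.Agent.Helper68.TG.AIG := by
  intro K _ _ σ _ _ g x a hg h0 h1
  exact Pool.Agent.Helper11.TG.absIrr (AlgebraicClosure K) a g x hg h0 h1

end Pool.Agent.Helper11.TG.AIG
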