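import Pool.Agent.Helper49.T3.IFT
import Pool.Agent.Helper2.T3.SHN
import Pool.Agent.Helper9.T3.FXP
import Pool.Agent.Helper15.T3.SPC

/-!
# Project TG (MP_a41896_nt): an irreducible polynomial with a smooth rational zero is absolutely irreducible

`K` any field, `g` irreducible over `K`, `g(ξ) = 0`, `∂_a g(ξ) ≠ 0`: `g` stays irreducible over every field `F ⊇ K`.
The Taylor point `Ξ : σ → K[[T_i : i ≠ a]]` of `g = 0` at `ξ` is generic over `K` and over `F`.
-/

set_option autoImplicit false

open MvPolynomial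

namespace Pool.Agent.Helper11.TG

open WeierstrassCurve Height
open Pool.Agent.Helper29.BL Pool.Agent.Helper92.Ru Pool.Agent.Helper42.SG
open Pool.Agent.Helper49.T3

noncomputable section

/-- the implicit function theorem for formal power series over any field -/
theorem ift {K : Type} [Field K] {τ σ : Type} [Fintype σ] [DecidableEq σ]
    (g : MvPolynomial σ K) (ξ : σ → K) (a : σ) (u : σ → MvPowerSeries τ K)
    (h0 : eval ξ g = 0) (h1 : eval ξ (pderiv a g) ≠ 0)
    (hu : ∀ i, MvPowerSeries.constantCoeff (u i) = 0) :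
    ∃ y : MvPowerSeries τ K, MvPowerSeries.constantCoeff y = 0 ∧
      aeval (fun i => MvPowerSeries.C (ξ i) + if i = a then y else u i) g = 0 := by
  classical
  set p := shiftP ξ g with hp
  set e : σ →₀ ℕ := Finsupp.single a 1 with he
  set δ : K := eval ξ (pderiv a g) with hδd
  have hce : coeff e p = δ := Pool.Agent.Helper2.T3.coeff_single_shiftP ξ a g
  have heS : e ∈ p.support := by rw [mem_support_iff, hce]; exact h1
  have h0S : ∀ s ∈ p.support, s ≠ 0 := by
    intro s hs h
    rw [h, mem_support_iff, Pool.Agent.Helper2.T3.coeff_zero_shiftP, h0] at hs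
    exact hs rfl
  set F := p.support.erase e with hF
  have hF0 : ∀ s ∈ F, s ≠ 0 := fun s hs => h0S s (Finset.mem_of_mem_erase hs)
  have hF1 : ∀ s ∈ F, s ≠ e := fun s hs => Finset.ne_of_mem_erase hs
  set Φ : MvPowerSeries τ K → MvPowerSeries τ K := fun y =>
    algebraMap K (MvPowerSeries τ K) (-δ⁻¹) *
      ∑ s ∈ F, algebraMap K (MvPowerSeries τ K) (coeff s p) * ∏ i, Uf a 1 u y i ^ s i with hΦ
  obtain ⟨y, hy0, hyΦ, -⟩ := Pool.Agent.Helper9.T3.FXP.t_FXP K τ Φ (by
    intro y hy
    rw [hΦ]
    simp only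
    rw [map_mul, map_sum]
    rw [Finset.sum_eq_zero, mul_zero]
    intro s hs
    rw [map_mul, prod_cc hu hy (hF0 s hs), mul_zero]) (by
    intro k y y' hy hy' hyy α hα
    have hk : Van k (y - y') := by
      intro β hβ
      rw [map_sub, hyy β hβ, sub_self]
    have h1 : Van (k + 1) (∑ s ∈ F, (∏ i, Uf a 1 u y i ^ s i - ∏ i, Uf a 1 u y' i ^ s i) *
        algebraMap K (MvPowerSeries τ K) (coeff s p)) :=
      Van.sum F _ fun s hs => (prod_contr hu hy hy' (hF1 s hs) hk).mulr _
    have h2 := (h1.mulr (algebraMap K (MvPowerSeries τ K) (-δ⁻¹))) α hα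
    rw [← sub_eq_zero, ← map_sub, ← h2]
    congr 1
    rw [hΦ]
    simp only
    rw [← mul_sub, ← Finset.sum_sub_distrib, mul_comm]
    congr 1
    refine Finset.sum_congr rfl fun s _ => ?_
    ring)
  refine ⟨y, hy0, ?_⟩
  have h2 := expand ξ (Uf a 1 u y) g
  have h3 : (fun i => MvPowerSeries.C (ξ i) + Uf a 1 u y i) =
      fun i => MvPowerSeries.C (ξ i) + if i = a then y else u i := by
    funext i
    unfold Pool.Agent.Helper49.T3.Uf
    rw [map_one, one_mul]
  rw [h3] at h2
  rw [h2, ← Finset.add_sum_erase _ _ heS]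
  have h4 : ∏ i, Uf a 1 u y i ^ e i = y := by
    rw [prod_split, he, Finsupp.single_eq_same, pow_one, map_one, one_mul]
    rw [Finset.prod_eq_one, mul_one]
    intro i hi
    rw [Finset.mem_erase] at hi
    rw [Finsupp.single_apply, if_neg (fun h => hi.1 h.symm), pow_zero]
  have h5 : algebraMap K (MvPowerSeries τ K) δ * Φ y =
      - ∑ s ∈ F, algebraMap K (MvPowerSeries τ K) (coeff s p) * ∏ i, Uf a 1 u y i ^ s i := by
    rw [hΦ]
    simp only
    rw [← mul_assoc, ← map_mul, mul_neg, mul_inv_cancel₀ h1, map_neg, map_one, neg_one_mul]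
  rw [h4, hce]
  have h6 : algebraMap K (MvPowerSeries τ K) δ * y =
      - ∑ s ∈ F, algebraMap K (MvPowerSeries τ K) (coeff s p) * ∏ i, Uf a 1 u y i ^ s i := by
    rw [← h5, hyΦ]
  rw [h6]
  exact neg_add_cancel _

/-- the Taylor point of `g = 0` at `ξ` -/
def tay {K : Type} [Field K] {σ : Type} [DecidableEq σ] (ξ : σ → K) (a : σ)
    (y : MvPowerSeries {i : σ // i ≠ a} K) (i : σ) : MvPowerSeries {i : σ // i ≠ a} K :=
  MvPowerSeries.C (ξ i) + if h : i = a then y else MvPowerSeries.X ⟨i, h⟩

theorem exists_tay {K : Type} [Field K] {σ : Type} [Fintype σ] [DecidableEq σ]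
    (g : MvPolynomial σ K) (ξ : σ → K) (a : σ) (h0 : eval ξ g = 0)
    (h1 : eval ξ (pderiv a g) ≠ 0) : ∃ y, aeval (tay ξ a y) g = 0 := by
  obtain ⟨y, -, hy⟩ := ift (τ := {i : σ // i ≠ a}) g ξ a
    (fun i => if h : i = a then 0 else MvPowerSeries.X ⟨i, h⟩) h0 h1 (by
      intro i
      by_cases h : i = a
      · rw [dif_pos h, map_zero]
      · rw [dif_neg h, MvPowerSeries.constantCoeff_X])
  refine ⟨y, ?_⟩
  rw [← hy]
  congr 2
  funext i
  unfold tay
  by_cases h : i = a
  · rw [dif_pos h, if_pos h]
  · rw [dif_neg h, if_neg h, dif_neg h]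

/-- the coordinates `i ≠ a` of the Taylor point are independent -/
theorem tay_ind {K : Type} [Field K] {σ : Type} [DecidableEq σ] (ξ : σ → K) (a : σ)
    (y : MvPowerSeries {i : σ // i ≠ a} K) (p : MvPolynomial {i : σ // i ≠ a} K)
    (hp : aeval (fun i : {i : σ // i ≠ a} => tay ξ a y i) p = 0) : p = 0 := by
  classical
  have h1 : (fun i : {i : σ // i ≠ a} => tay ξ a y i) =
      fun i : {i : σ // i ≠ a} =>
        ((X i + C (ξ i) : MvPolynomial {i : σ // i ≠ a} K) : MvPowerSeries _ K) := by
    funext i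
    unfold tay
    rw [dif_neg i.2]
    push_cast
    rw [add_comm]
  rw [h1] at hp
  have h2 : ((aeval (fun i : {i : σ // i ≠ a} =>
      (X i + C (ξ i) : MvPolynomial {i : σ // i ≠ a} K)) p : MvPolynomial _ K) :
        MvPowerSeries {i : σ // i ≠ a} K) = 0 := by
    rw [← hp]
    have h3 : ((MvPolynomial.coeToMvPowerSeries.algHom K).comp
        (aeval (fun i : {i : σ // i ≠ a} =>
          (X i + C (ξ i) : MvPolynomial {i : σ // i ≠ a} K)))) =
        (aeval (fun i : {i : σ // i ≠ a} =>
          ((X i + C (ξ i) : MvPolynomial {i : σ // i ≠ a} K) : MvPowerSeries _ K)) :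
          MvPolynomial {i : σ // i ≠ a} K →ₐ[K] _) := by
      refine MvPolynomial.algHom_ext fun i => ?_
      rw [AlgHom.comp_apply, aeval_X, aeval_X]
      rfl
    have h4 := DFunLike.congr_fun h3 p
    rw [← h4]
    rfl
  have h5 : shiftP (fun i : {i : σ // i ≠ a} => ξ i) p = 0 := by
    have h6 : ((shiftP (fun i : {i : σ // i ≠ a} => ξ i) p : MvPolynomial _ K) :
        MvPowerSeries {i : σ // i ≠ a} K) = 0 := h2
    exact MvPolynomial.coe_injective _ K (h6.trans MvPolynomial.coe_zero.symm)
  -- the shift is injective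
  have h7 : aeval (fun i : {i : σ // i ≠ a} =>
      (X i - C (ξ i) : MvPolynomial {i : σ // i ≠ a} K))
      (shiftP (fun i : {i : σ // i ≠ a} => ξ i) p) = p := by
    unfold shiftP
    have h8 : (aeval (fun i : {i : σ // i ≠ a} =>
        (X i - C (ξ i) : MvPolynomial {i : σ // i ≠ a} K))).comp
        (aeval (fun h : {i : σ // i ≠ a} => X h + C (ξ h)) :
          MvPolynomial {i : σ // i ≠ a} K →ₐ[K] MvPolynomial {i : σ // i ≠ a} K) =
        AlgHom.id K _ := by
      refine MvPolynomial.algHom_ext fun i => ?_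
      rw [AlgHom.comp_apply, aeval_X, map_add, aeval_X, aeval_C, AlgHom.id_apply,
        MvPolynomial.algebraMap_eq, sub_add_cancel]
    exact DFunLike.congr_fun h8 p
  rw [← h7, h5, map_zero]

/-- every polynomial which vanishes at the Taylor point is divisible by `g` -/
theorem tay_gen {K : Type} [Field K] {σ : Type} [Fintype σ] [DecidableEq σ]
    {g : MvPolynomial σ K} {ξ : σ → K} {a : σ} {y : MvPowerSeries {i : σ // i ≠ a} K}
    (hg : Irreducible g) (h1 : eval ξ (pderiv a g) ≠ 0) (hy : aeval (tay ξ a y) g = 0)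
    (p : MvPolynomial σ K) (hp : aeval (tay ξ a y) p = 0) : g ∣ p := by
  have key : ∀ (ι : Type) (x : ι → MvPowerSeries {i : σ // i ≠ a} K) (q : MvPolynomial ι K),
      aeval (fun i => algebraMap _ (FractionRing (MvPowerSeries {i : σ // i ≠ a} K)) (x i)) q =
        algebraMap _ (FractionRing (MvPowerSeries {i : σ // i ≠ a} K)) (aeval x q) := by
    intro ι x q
    have h2 := (MvPolynomial.map_aeval x
      (algebraMap _ (FractionRing (MvPowerSeries {i : σ // i ≠ a} K))) q)
    rw [h2, aeval_def]
    congr 1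
  have hdeg : degreeOf a g ≠ 0 := by
    intro h
    apply h1
    have h2 : a ∉ g.vars := by
      rw [vars_def, Multiset.mem_toFinset, ← Multiset.count_pos, ← degreeOf_def]
      omega
    rw [pderiv_eq_zero_of_notMem_vars h2, map_zero]
  refine Pool.Agent.Helper15.T3.SPC.gen
    (L := FractionRing (MvPowerSeries {i : σ // i ≠ a} K))
    (X := fun i => algebraMap _ (FractionRing (MvPowerSeries {i : σ // i ≠ a} K)) (tay ξ a y i))
    hg hdeg ?_ ?_ ?_
  · rw [key, hy, map_zero]
  · rw [algebraicIndependent_iff]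
    intro q hq
    rw [key _ (fun i : {i : σ // i ≠ a} => tay ξ a y i)] at hq
    have h3 := (map_eq_zero_iff (algebraMap _
      (FractionRing (MvPowerSeries {i : σ // i ≠ a} K)))
      (IsFractionRing.injective (MvPowerSeries {i : σ // i ≠ a} K) _)).1 hq
    exact tay_ind ξ a y q h3
  · rw [key, hp, map_zero]

section ext

variable {K F : Type} [Field K] [Field F] [Algebra K F] {σ : Type}

/-- apply a `K`-linear form to the coefficients -/
def mp (φ : F →ₗ[K] K) (p : MvPolynomial σ F) : MvPolynomial σ K :=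
  ∑ m ∈ p.support, monomial m (φ (coeff m p))

theorem coeff_mp (φ : F →ₗ[K] K) (p : MvPolynomial σ F) (m : σ →₀ ℕ) :
    coeff m (mp φ p) = φ (coeff m p) := by
  classical
  unfold mp
  rw [coeff_sum]
  by_cases h : m ∈ p.support
  · rw [Finset.sum_eq_single m]
    · rw [coeff_monomial, if_pos rfl]
    · intro m' _ hne
      rw [coeff_monomial, if_neg hne]
    · intro h'
      exact absurd h h'
  · rw [Finset.sum_eq_zero]
    · rw [notMem_support_iff.1 h, map_zero]
    · intro m' hm'
      rw [coeff_monomial, if_neg]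
      rintro rfl
      exact h hm'

/-- `p` is the combination of its coordinates -/
theorem decomp (p : MvPolynomial σ F) (g : MvPolynomial σ K)
    (h : ∀ φ : F →ₗ[K] K, g ∣ mp φ p) : map (algebraMap K F) g ∣ p := by
  classical
  set B := Module.Basis.ofVectorSpace K F
  set S := p.support.biUnion (fun m => (B.repr (coeff m p)).support) with hS
  have h1 : p = ∑ k ∈ S, C (B k) * map (algebraMap K F) (mp (B.coord k) p) := by
    refine MvPolynomial.ext _ _ fun m => ?_
    rw [coeff_sum]
    have h2 : ∀ k ∈ S, coeff m (C (B k) * map (algebraMap K F) (mp (B.coord k) p)) =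
        (B.repr (coeff m p)) k • B k := by
      intro k _
      rw [coeff_C_mul, coeff_map, coeff_mp, Module.Basis.coord_apply, Algebra.smul_def, mul_comm]
    rw [Finset.sum_congr rfl h2]
    have h3 : (B.repr (coeff m p)).support ⊆ S := by
      by_cases hm : m ∈ p.support
      · exact Finset.subset_biUnion_of_mem (fun m => (B.repr (coeff m p)).support) hm
      · rw [notMem_support_iff.1 hm, map_zero]
        simp
    have h4 := B.linearCombination_repr (coeff m p)
    rw [Finsupp.linearCombination_apply, Finsupp.sum] at h4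
    rw [← Finset.sum_subset h3]
    · exact h4.symm
    · intro k _ hk
      rw [Finsupp.notMem_support_iff.1 hk, zero_smul]
  rw [h1]
  refine Finset.dvd_sum fun k _ => ?_
  exact Dvd.dvd.mul_left ((map (algebraMap K F)).map_dvd (h (B.coord k))) _

variable [Fintype σ]

/-- the values at a point with coordinates in `K[[T]]` -/
theorem mp_aeval {τ : Type} (x : σ → MvPowerSeries τ K) (p : MvPolynomial σ F)
    (hp : aeval (fun i => MvPowerSeries.map (algebraMap K F) (x i)) p = 0) (φ : F →ₗ[K] K) :
    aeval x (mp φ p) = 0 := by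
  classical
  have h1 : aeval (fun i => MvPowerSeries.map (algebraMap K F) (x i)) p =
      ∑ m ∈ p.support, MvPowerSeries.C (coeff m p) *
        MvPowerSeries.map (algebraMap K F) (∏ i, x i ^ m i) := by
    rw [aeval_def, eval₂_eq']
    refine Finset.sum_congr rfl fun m _ => ?_
    rw [map_prod]
    simp only [map_pow]
    rfl
  have h2 : aeval x (mp φ p) =
      ∑ m ∈ p.support, MvPowerSeries.C (φ (coeff m p)) * ∏ i, x i ^ m i := by
    unfold mp
    rw [map_sum]
    refine Finset.sum_congr rfl fun m _ => ?_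
    rw [aeval_monomial, Finsupp.prod_fintype _ _ (fun i => pow_zero _)]
    rfl
  refine MvPowerSeries.ext fun ν => ?_
  have h3 : MvPowerSeries.coeff ν (aeval x (mp φ p)) = φ (MvPowerSeries.coeff ν
      (aeval (fun i => MvPowerSeries.map (algebraMap K F) (x i)) p)) := by
    rw [h1, h2, map_sum, map_sum, map_sum]
    refine Finset.sum_congr rfl fun m _ => ?_
    rw [MvPowerSeries.coeff_C_mul, MvPowerSeries.coeff_C_mul, MvPowerSeries.coeff_map,
      mul_comm (coeff m p), ← Algebra.smul_def, map_smul, smul_eq_mul, mul_comm]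
  rw [h3, hp, map_zero, map_zero, map_zero]

variable [DecidableEq σ]

/-- every polynomial over `F` which vanishes at the Taylor point is divisible by `g` -/
theorem tay_genF {g : MvPolynomial σ K} {ξ : σ → K} {a : σ}
    {y : MvPowerSeries {i : σ // i ≠ a} K} (hg : Irreducible g)
    (h1 : eval ξ (pderiv a g) ≠ 0) (hy : aeval (tay ξ a y) g = 0) (p : MvPolynomial σ F)
    (hp : aeval (fun i => MvPowerSeries.map (algebraMap K F) (tay ξ a y i)) p = 0) :
    map (algebraMap K F) g ∣ p :=
  decomp p g fun φ => tay_gen hg h1 hy _ (mp_aeval (tay ξ a y) p hp φ)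

/-- **an irreducible polynomial with a smooth rational zero is absolutely irreducible** -/
theorem absIrr (F : Type) [Field F] [Algebra K F] (a : σ) (g : MvPolynomial σ K) (ξ : σ → K)
    (hg : Irreducible g) (h0 : eval ξ g = 0) (h1 : eval ξ (pderiv a g) ≠ 0) :
    Irreducible (map (algebraMap K F) g) := by
  obtain ⟨y, hy⟩ := exists_tay g ξ a h0 h1
  have hgF : aeval (fun i => MvPowerSeries.map (algebraMap K F) (tay ξ a y i))
      (map (algebraMap K F) g) = 0 := by
    have h2 : aeval (fun i => MvPowerSeries.map (algebraMap K F) (tay ξ a y i))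
        (map (algebraMap K F) g) = MvPowerSeries.map (algebraMap K F) (aeval (tay ξ a y) g) := by
      rw [aeval_def, eval₂_map, aeval_def, hom_eval₂]
      congr 1
      refine RingHom.ext fun c => ?_
      show MvPowerSeries.C (algebraMap K F c) =
        MvPowerSeries.map (algebraMap K F) (MvPowerSeries.C c)
      rw [MvPowerSeries.map_C]
    rw [h2, hy, map_zero]
  have hne : map (algebraMap K F) g ≠ 0 := by
    intro h
    exact hg.ne_zero ((map_eq_zero_iff _ (map_injective _ (algebraMap K F).injective)).1 h)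
  refine Prime.irreducible ⟨hne, ?_, ?_⟩
  · intro h
    have h2 := h.map (aeval (fun i => MvPowerSeries.map (algebraMap K F) (tay ξ a y i)) :
      MvPolynomial σ F →ₐ[F] _)
    rw [hgF] at h2
    exact not_isUnit_zero h2
  · intro p q hpq
    obtain ⟨r, hr⟩ := hpq
    have h2 : aeval (fun i => MvPowerSeries.map (algebraMap K F) (tay ξ a y i)) (p * q) = 0 := by
      rw [hr, map_mul, hgF, zero_mul]
    rw [map_mul, mul_eq_zero] at h2
    rcases h2 with h2 | h2
    · exact Or.inl (tay_genF hg h1 hy p h2)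
    · exact Or.inr (tay_genF hg h1 hy q h2)

end ext

end

end Pool.Agent.Helper11.TG
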